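import Pool.Agent.H164Z.SpanMain

/-!
# TREE 3-SPANNER is polynomial-time solvable on chordal graphs
-/

namespace Pool.Agent.Results.MP_386785_lc.ChordalInP

open Pool.Agent.NPC Pool.Agent.H164Z.Span

/-- There is a polynomial-time algorithm which, given the adjacency matrix of a connected chordal
graph, decides whether the graph has a tree 3-spanner. -/
theorem result : ∃ D : List Bool → List Bool, PolyTime D ∧
    ∀ (n : ℕ) (G : SimpleGraph (Fin n)), G.Connected → Chordal G →
      (D (bits (adjMat G)) = [true] ↔ ∃ T : SimpleGraph (Fin n), IsTree3Spanner G T) ∧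
      (D (bits (adjMat G)) = [false] ↔ ¬ ∃ T : SimpleGraph (Fin n), IsTree3Spanner G T) := by
  refine ⟨fun x => [match unbits (List (List Bool)) x with | none => false | some a => decAlg a],
    ?_, ?_⟩
  · refine polyTime_of_poly ((NPC.Poly.optCases (g := fun _ => false) (h := fun _ a => decAlg a)
      poly_unbits (NPC.Poly.const _) (poly_decAlg.comp (NPC.Poly.snd NPC.Poly.id))).congr
      fun x => ?_)
    cases unbits (List (List Bool)) x <;> rfl
  · intro n G hG hc
    have h2 := decAlg_correct G hG hc
    dsimp only
    rw [unbits_bits]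
    simp only [List.cons.injEq, and_true]
    refine ⟨h2, ?_⟩
    rw [← h2]
    simp

end Pool.Agent.Results.MP_386785_lc.ChordalInP
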